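import Pool.Agent.Helper25.FN.Spec

set_option autoImplicit false

/-!
Integration by parts for the Wirtinger derivatives with the weight.
-/

namespace Pool.Agent.Helper54.FN

open MeasureTheory
open scoped ContDiff
open Pool.Agent.Helper25.FN
open Pool.Agent.Helper25.FB.Inj (Entire)

variable {n : ℕ}

lemma continuous_nm : Continuous (nm : V n → ℝ) := by unfold nm; fun_prop

lemma nm_nonneg (z : V n) : 0 ≤ nm z := Real.sqrt_nonneg _

lemma norm_le_nm (z : V n) : ‖z‖ ≤ nm z := by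
  rw [pi_norm_le_iff_of_nonneg (nm_nonneg z)]
  intro j
  unfold nm
  refine Real.le_sqrt_of_sq_le ?_
  exact Finset.single_le_sum (f := fun j => ‖z j‖ ^ 2) (fun j _ => sq_nonneg _)
    (Finset.mem_univ j)

lemma int_dec {m : ℤ} (hm : m ≤ -(2 * n + 1 : ℤ)) :
    Integrable (fun z : V n => (1 + nm z) ^ m) := by
  have hfr : Module.finrank ℝ (V n) = n * 2 := by
    rw [Module.finrank_pi_fintype]
    simp [Complex.finrank_real_complex]
  have hf : (Module.finrank ℝ (V n) : ℝ) < -((m : ℤ) : ℝ) := by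
    rw [hfr]
    have : ((m : ℤ) : ℝ) ≤ ((-(2 * n + 1 : ℤ) : ℤ) : ℝ) := by exact_mod_cast hm
    push_cast at this ⊢
    linarith
  have h := integrable_one_add_norm (μ := (volume : Measure (V n))) hf
  have hc : Continuous fun z : V n => (1 + nm z) ^ m := by
    have h0 : Continuous fun z : V n => 1 + nm z := continuous_const.add continuous_nm
    refine h0.zpow₀ m fun z => Or.inl ?_
    have := nm_nonneg z
    exact ne_of_gt (by linarith)
  refine h.mono' hc.aestronglyMeasurable (Filter.Eventually.of_forall fun z => ?_)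
  have h0 := nm_nonneg z
  have h1 : 0 < 1 + nm z := by positivity
  have h2 : 0 < 1 + ‖z‖ := by positivity
  rw [Real.norm_eq_abs, abs_of_pos (zpow_pos h1 m), neg_neg, ← Real.rpow_intCast]
  refine Real.rpow_le_rpow_of_nonpos h2 (by linarith [norm_le_nm z]) ?_
  have : (0 : ℝ) ≤ Module.finrank ℝ (V n) := Nat.cast_nonneg _
  linarith

lemma wc_eq (Φ : V n → ℝ) (z : V n) : wc Φ z = Complex.exp (-2 * (Φ z : ℂ)) := by
  simp [wc, wt, Complex.ofReal_exp]

lemma norm_wc (Φ : V n → ℝ) (z : V n) : ‖wc Φ z‖ = Real.exp (-2 * Φ z) := by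
  unfold wc wt
  rw [Complex.norm_real, Real.norm_eq_abs, abs_of_pos (Real.exp_pos _)]

lemma prod_int {F G : V n → ℂ} {Φ : V n → ℝ} {a k : ℤ} {C1 C2 : ℝ} (hF : Continuous F)
    (hG : Continuous G) (h1 : ∀ z, ‖F z‖ ≤ C1 * (1 + nm z) ^ a * Real.exp (2 * Φ z))
    (h2 : ∀ z, ‖G z‖ ≤ C2 * (1 + nm z) ^ k * Real.exp (-2 * Φ z))
    (hk : a + k ≤ -(2 * n + 1 : ℤ)) : Integrable (fun z => F z * G z) := by
  refine ((int_dec hk).const_mul (C1 * C2)).mono' (hF.mul hG).aestronglyMeasurable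
    (Filter.Eventually.of_forall fun z => ?_)
  have h0 := nm_nonneg z
  have hp : 0 < 1 + nm z := by positivity
  rw [norm_mul]
  have e : Real.exp (2 * Φ z) * Real.exp (-2 * Φ z) = 1 := by
    rw [← Real.exp_add, show 2 * Φ z + -2 * Φ z = 0 by ring, Real.exp_zero]
  calc ‖F z‖ * ‖G z‖ ≤ (C1 * (1 + nm z) ^ a * Real.exp (2 * Φ z)) *
        (C2 * (1 + nm z) ^ k * Real.exp (-2 * Φ z)) :=
        mul_le_mul (h1 z) (h2 z) (norm_nonneg _) ((norm_nonneg _).trans (h1 z))
    _ = C1 * C2 * ((1 + nm z) ^ a * (1 + nm z) ^ k) *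
        (Real.exp (2 * Φ z) * Real.exp (-2 * Φ z)) := by ring
    _ = C1 * C2 * (1 + nm z) ^ (a + k) := by rw [e, mul_one, ← zpow_add₀ hp.ne']

lemma norm_single (j : Fin n) {c : ℂ} (hc : ‖c‖ = 1) : ‖(Pi.single j c : V n)‖ ≤ 1 := by
  rw [pi_norm_le_iff_of_nonneg zero_le_one]
  intro i
  by_cases h : i = j
  · subst h; simp [hc]
  · simp [h]

/-- product of two functions of the growth classes, bound -/
lemma gr_mul {Φ : V n → ℝ} {s t : ℤ} {f r : V n → ℂ} {C1 C2 : ℝ}
    (h1 : ∀ z, ‖f z‖ ≤ C1 * (1 + nm z) ^ s * Real.exp (Φ z))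
    (h2 : ∀ z, ‖r z‖ ≤ C2 * (1 + nm z) ^ t * Real.exp (Φ z)) (z : V n) :
    ‖f z * starRingEnd ℂ (r z)‖ ≤ C1 * C2 * (1 + nm z) ^ (s + t) * Real.exp (2 * Φ z) := by
  have h0 := nm_nonneg z
  have hp : 0 < 1 + nm z := by positivity
  rw [norm_mul, RCLike.norm_conj]
  have e : Real.exp (2 * Φ z) = Real.exp (Φ z) * Real.exp (Φ z) := by
    rw [← Real.exp_add]; congr 1; ring
  calc ‖f z‖ * ‖r z‖ ≤ (C1 * (1 + nm z) ^ s * Real.exp (Φ z)) *
        (C2 * (1 + nm z) ^ t * Real.exp (Φ z)) :=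
        mul_le_mul (h1 z) (h2 z) (norm_nonneg _) ((norm_nonneg _).trans (h1 z))
    _ = _ := by rw [zpow_add₀ hp.ne', e]; ring

lemma entire_dir {f : V n → ℂ} (hf : Entire f) (z : V n) (j : Fin n) (c : ℂ) :
    fderiv ℝ f z (Pi.single j c) = c * fderiv ℂ f z (Pi.single j 1) := by
  have h1 : fderiv ℝ f z = (fderiv ℂ f z).restrictScalars ℝ :=
    (hf z).fderiv_restrictScalars ℝ
  have h2 : (Pi.single j c : V n) = c • (Pi.single j 1 : V n) := by
    rw [← Pi.single_smul, smul_eq_mul, mul_one]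
  rw [h1, ContinuousLinearMap.coe_restrictScalars', h2, map_smul, smul_eq_mul]

theorem IBP.main (hWD : S_WD) (hGR2 : S_GR2) : S_IBP := by
  intro n Φ hΦ hsΦ j k s t f r q hf hr hq hk
  obtain ⟨-, -, -, hWwc, hWent⟩ := hWD n j
  obtain ⟨hG2, -, -, -, -, -⟩ := hGR2 n Φ hΦ hsΦ
  obtain ⟨hwcs, -⟩ := hWwc Φ hΦ
  obtain ⟨hfe, C1, h1⟩ := hf
  obtain ⟨hre, C2, h2⟩ := hr
  obtain ⟨hfs, -, hfw, -⟩ := hWent f hfe
  obtain ⟨hrs, -, hrw, hrc⟩ := hWent r hre
  obtain ⟨-, D1, g1⟩ := hG2 s f j ⟨hfe, C1, h1⟩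
  obtain ⟨-, D2, g2⟩ := hG2 t r j ⟨hre, C2, h2⟩
  obtain ⟨hqs, hqb⟩ := hq
  obtain ⟨Q0, q0⟩ := hqb 0
  obtain ⟨Q1, q1⟩ := hqb 1
  obtain ⟨-, hΦb⟩ := hsΦ
  obtain ⟨P1, p1⟩ := hΦb 1
  have hfd : Differentiable ℝ f := hfs.differentiable (by simp)
  have hrd : Differentiable ℝ r := hrs.differentiable (by simp)
  have hqd : Differentiable ℝ q := hqs.differentiable (by simp)
  have hwd : Differentiable ℝ (wc Φ) := hwcs.differentiable (by simp)
  set F : V n → ℂ := fun z => f z * starRingEnd ℂ (r z) with hF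
  set G : V n → ℂ := fun z => q z * wc Φ z with hG
  have hcs : ContDiff ℝ ∞ (fun z => starRingEnd ℂ (r z)) :=
    Complex.conjCLE.contDiff.comp hrs
  have hcd : Differentiable ℝ (fun z => starRingEnd ℂ (r z)) := hcs.differentiable (by simp)
  have hFs : ContDiff ℝ ∞ F := hfs.mul hcs
  have hGs : ContDiff ℝ ∞ G := hqs.mul hwcs
  have hFd : Differentiable ℝ F := hFs.differentiable (by simp)
  have hGd : Differentiable ℝ G := hGs.differentiable (by simp)
  have hFb : ∀ z, ‖F z‖ ≤ C1 * C2 * (1 + nm z) ^ (s + t) * Real.exp (2 * Φ z) :=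
    fun z => gr_mul h1 h2 z
  -- derivative of `F`
  have hF' : ∀ (c : ℂ), ‖c‖ = 1 → ∀ z, ‖fderiv ℝ F z (Pi.single j c)‖ ≤
      (D1 * C2 + C1 * D2) * (1 + nm z) ^ (s + t) * Real.exp (2 * Φ z) := by
    intro c hc z
    have e1 : fderiv ℝ F z (Pi.single j c)
        = (c * wd j f z) * starRingEnd ℂ (r z) + f z * starRingEnd ℂ (c * wd j r z) := by
      have a1 : fderiv ℝ F z = f z • fderiv ℝ (fun z => starRingEnd ℂ (r z)) z
          + starRingEnd ℂ (r z) • fderiv ℝ f z := fderiv_mul (hfd z) (hcd z)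
      have a2 : fderiv ℝ (fun z => starRingEnd ℂ (r z)) z
          = (Complex.conjCLE : ℂ →L[ℝ] ℂ).comp (fderiv ℝ r z) :=
        ((Complex.conjCLE : ℂ →L[ℝ] ℂ).hasFDerivAt.comp z (hrd z).hasFDerivAt).fderiv
      rw [a1, a2]
      simp only [ContinuousLinearMap.add_apply, ContinuousLinearMap.smul_apply,
        ContinuousLinearMap.comp_apply, smul_eq_mul]
      rw [entire_dir hfe, entire_dir hre, ← hfw, ← hrw]
      have a3 : ((Complex.conjCLE : ℂ →L[ℝ] ℂ)) (c * wd j r z)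
          = starRingEnd ℂ (c * wd j r z) := rfl
      rw [a3]
      ring
    rw [e1]
    refine (norm_add_le _ _).trans ?_
    have b1 : ‖c * wd j f z * starRingEnd ℂ (r z)‖ ≤
        D1 * C2 * (1 + nm z) ^ (s + t) * Real.exp (2 * Φ z) := by
      have := gr_mul g1 h2 z
      rw [norm_mul] at this ⊢
      rwa [norm_mul, hc, one_mul]
    have b2 : ‖f z * starRingEnd ℂ (c * wd j r z)‖ ≤
        C1 * D2 * (1 + nm z) ^ (s + t) * Real.exp (2 * Φ z) := by
      have := gr_mul h1 g2 z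
      rw [norm_mul, RCLike.norm_conj] at this ⊢
      rwa [norm_mul, hc, one_mul]
    linarith
  -- bounds of `G`
  have hGb : ∀ z, ‖G z‖ ≤ Q0 * (1 + nm z) ^ k * Real.exp (-2 * Φ z) := by
    intro z
    have := q0 z
    rw [norm_iteratedFDeriv_zero] at this
    simp only [hG]
    rw [norm_mul, norm_wc]
    refine mul_le_mul_of_nonneg_right ?_ (Real.exp_pos _).le
    simpa using this
  have hG' : ∀ (c : ℂ), ‖c‖ = 1 → ∀ z, ‖fderiv ℝ G z (Pi.single j c)‖ ≤
      (Q1 + 2 * Q0 * P1) * (1 + nm z) ^ k * Real.exp (-2 * Φ z) := by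
    intro c hc z
    have h0 := nm_nonneg z
    have hp : 0 < 1 + nm z := by positivity
    have hv := norm_single j hc
    have w1 : HasFDerivAt (fun z => (Φ z : ℂ)) (fderiv ℝ (fun z => (Φ z : ℂ)) z) z := by
      have : Differentiable ℝ fun z => (Φ z : ℂ) :=
        Complex.ofRealCLM.differentiable.comp (hΦ.differentiable (by simp))
      exact (this z).hasFDerivAt
    have w2 : HasFDerivAt (wc Φ) (Complex.exp (-2 * (Φ z : ℂ)) •
        ((-2 : ℂ) • fderiv ℝ (fun z => (Φ z : ℂ)) z)) z := by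
      have h3 := (w1.const_mul (-2 : ℂ)).cexp
      have h4 : (fun z => Complex.exp (-2 * (Φ z : ℂ))) = wc Φ := by
        funext z; rw [wc_eq]
      rw [h4] at h3
      exact h3
    have e1 : fderiv ℝ G z (Pi.single j c) = fderiv ℝ q z (Pi.single j c) * wc Φ z
        + q z * (wc Φ z * (-2 * fderiv ℝ (fun z => (Φ z : ℂ)) z (Pi.single j c))) := by
      have a1 : fderiv ℝ G z = q z • fderiv ℝ (wc Φ) z + wc Φ z • fderiv ℝ q z :=
        fderiv_mul (hqd z) (hwd z)
      rw [a1, w2.fderiv, ← wc_eq]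
      simp only [ContinuousLinearMap.add_apply, ContinuousLinearMap.smul_apply, smul_eq_mul]
      ring
    have q0' : ‖q z‖ ≤ Q0 * (1 + nm z) ^ k := by
      have := q0 z
      rw [norm_iteratedFDeriv_zero] at this
      simpa using this
    have q1' : ‖fderiv ℝ q z (Pi.single j c)‖ ≤ Q1 * (1 + nm z) ^ k := by
      have h3 := q1 z
      rw [norm_iteratedFDeriv_one] at h3
      have h4 : ‖fderiv ℝ q z (Pi.single j c)‖ ≤ ‖fderiv ℝ q z‖ := by
        refine ((fderiv ℝ q z).le_opNorm _).trans ?_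
        exact mul_le_of_le_one_right (norm_nonneg _) hv
      refine h4.trans (h3.trans ?_)
      have hQ1 : 0 ≤ Q1 := by
        by_contra hneg
        have : Q1 * (1 + nm z) ^ (k - (1 : ℕ)) < 0 :=
          mul_neg_of_neg_of_pos (not_le.1 hneg) (zpow_pos hp _)
        have := norm_nonneg (fderiv ℝ q z)
        linarith
      refine mul_le_mul_of_nonneg_left ?_ hQ1
      exact zpow_le_zpow_right₀ (by linarith) (by simp)
    have p1' : ‖fderiv ℝ (fun z => (Φ z : ℂ)) z (Pi.single j c)‖ ≤ P1 := by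
      have h3 := p1 z
      rw [norm_iteratedFDeriv_one] at h3
      refine (((fderiv ℝ (fun z => (Φ z : ℂ)) z).le_opNorm _).trans ?_).trans
        (h3.trans (le_of_eq ?_))
      · exact mul_le_of_le_one_right (norm_nonneg _) hv
      · simp
    rw [e1]
    refine (norm_add_le _ _).trans ?_
    have hE := (Real.exp_pos (-2 * Φ z)).le
    have b1 : ‖fderiv ℝ q z (Pi.single j c) * wc Φ z‖ ≤
        Q1 * (1 + nm z) ^ k * Real.exp (-2 * Φ z) := by
      rw [norm_mul, norm_wc]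
      exact mul_le_mul_of_nonneg_right q1' hE
    have b2 : ‖q z * (wc Φ z * (-2 * fderiv ℝ (fun z => (Φ z : ℂ)) z (Pi.single j c)))‖ ≤
        2 * Q0 * P1 * (1 + nm z) ^ k * Real.exp (-2 * Φ z) := by
      rw [norm_mul, norm_mul, norm_mul, norm_wc, norm_neg, Complex.norm_ofNat]
      have h5 : ‖q z‖ * ‖fderiv ℝ (fun z => (Φ z : ℂ)) z (Pi.single j c)‖
          ≤ (Q0 * (1 + nm z) ^ k) * P1 :=
        mul_le_mul q0' p1' (norm_nonneg _) ((norm_nonneg _).trans q0')
      have h6 := mul_le_mul_of_nonneg_right h5 hE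
      calc ‖q z‖ * (Real.exp (-2 * Φ z) *
            (2 * ‖fderiv ℝ (fun z => (Φ z : ℂ)) z (Pi.single j c)‖))
          = 2 * (‖q z‖ * ‖fderiv ℝ (fun z => (Φ z : ℂ)) z (Pi.single j c)‖ *
            Real.exp (-2 * Φ z)) := by ring
        _ ≤ 2 * (Q0 * (1 + nm z) ^ k * P1 * Real.exp (-2 * Φ z)) := by linarith
        _ = _ := by ring
    linarith
  have hk' : (s + t) + k ≤ -(2 * n + 1 : ℤ) := hk
  have iFG : Integrable (fun z => F z * G z) := prod_int hFs.continuous hGs.continuous hFb hGb hk'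
  have hFc : ∀ v : V n, Continuous fun z => fderiv ℝ F z v := fun v =>
    (hFs.continuous_fderiv (by simp)).clm_apply continuous_const
  have hGc : ∀ v : V n, Continuous fun z => fderiv ℝ G z v := fun v =>
    (hGs.continuous_fderiv (by simp)).clm_apply continuous_const
  have iF'G : ∀ c : ℂ, ‖c‖ = 1 →
      Integrable (fun z => fderiv ℝ F z (Pi.single j c) * G z) := fun c hc =>
    prod_int (hFc _) hGs.continuous (hF' c hc) hGb hk'
  have iFG' : ∀ c : ℂ, ‖c‖ = 1 →
      Integrable (fun z => F z * fderiv ℝ G z (Pi.single j c)) := fun c hc =>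
    prod_int hFs.continuous (hGc _) hFb (hG' c hc) hk'
  have parts : ∀ c : ℂ, ‖c‖ = 1 → ∫ z, F z * fderiv ℝ G z (Pi.single j c)
      = -∫ z, fderiv ℝ F z (Pi.single j c) * G z := fun c hc =>
    integral_mul_fderiv_eq_neg_fderiv_mul_of_integrable (iF'G c hc) (iFG' c hc) iFG
      (fun z _ => hFd z) (fun z _ => hGd z)
  refine ⟨iFG, ?_⟩
  -- the Wirtinger derivative of `F`
  have hwF : ∀ z, wd j F z = wd j f z * starRingEnd ℂ (r z) := by
    intro z
    obtain ⟨hrule, -, -, -, -⟩ := hWD n j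
    have := (hrule f (fun y => starRingEnd ℂ (r y)) hfd hcd z).2
    rw [hrc z, mul_zero, add_zero] at this
    exact this
  have eL : ∀ z, wd j f z * starRingEnd ℂ (r z) * (q z * wc Φ z)
      = (1 / 2 : ℂ) * (fderiv ℝ F z (Pi.single j 1) * G z)
        - (Complex.I / 2) * (fderiv ℝ F z (Pi.single j Complex.I) * G z) := by
    intro z
    rw [← hwF z]
    simp only [wd, hG]
    ring
  have eR : ∀ z, f z * starRingEnd ℂ (r z) * wd j G z
      = (1 / 2 : ℂ) * (F z * fderiv ℝ G z (Pi.single j 1))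
        - (Complex.I / 2) * (F z * fderiv ℝ G z (Pi.single j Complex.I)) := by
    intro z
    simp only [wd, hF]
    ring
  simp only [eL, eR]
  have n1 : ‖(1 : ℂ)‖ = 1 := norm_one
  have nI : ‖Complex.I‖ = 1 := Complex.norm_I
  rw [integral_sub ((iF'G 1 n1).const_mul _) ((iF'G _ nI).const_mul _),
    integral_sub ((iFG' 1 n1).const_mul _) ((iFG' _ nI).const_mul _),
    integral_const_mul, integral_const_mul, integral_const_mul, integral_const_mul,
    parts 1 n1, parts _ nI]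
  ring

end Pool.Agent.Helper54.FN
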