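import Pool.Agent.Helper25.FN.Spec

set_option autoImplicit false

/-!
Iterated integration by parts: the operators `P(∂)` and `Nop l`.
-/

namespace Pool.Agent.Helper54.FN

open MeasureTheory
open scoped ContDiff
open Pool.Agent.Helper25.FN
open Pool.Agent.Helper25.FB.Inj (Entire)

variable {n : ℕ}

lemma wd_comm {f : V n → ℂ} (hf : ContDiff ℝ ∞ f) (j k : Fin n) :
    wd j (wd k f) = wd k (wd j f) := by
  have h2 : ContDiff ℝ 2 f := by exact_mod_cast contDiff_infty.1 hf 2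
  have hd : Differentiable ℝ (fderiv ℝ f) :=
    (h2.fderiv_right (m := 1) (by norm_num)).differentiable (by norm_num)
  have hap : ∀ (v z : V n), HasFDerivAt (fun y => fderiv ℝ f y v)
      ((fderiv ℝ (fderiv ℝ f) z).flip v) z := by
    intro v z
    exact ((hd z).hasFDerivAt.clm_apply (hasFDerivAt_const v z)).congr_fderiv (by
      ext u
      simp)
  have hwd : ∀ (i : Fin n) (z u : V n), fderiv ℝ (wd i f) z u =
      (fderiv ℝ (fderiv ℝ f) z u (Pi.single i 1) -
        Complex.I * fderiv ℝ (fderiv ℝ f) z u (Pi.single i Complex.I)) / 2 := by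
    intro i z u
    have h := (((hap (Pi.single i 1) z).sub
      ((hap (Pi.single i Complex.I) z).const_mul Complex.I)).mul_const (2 : ℂ)⁻¹)
    have e : wd i f = fun y => (fderiv ℝ f y (Pi.single i 1) -
        Complex.I * fderiv ℝ f y (Pi.single i Complex.I)) * (2 : ℂ)⁻¹ := by
      funext y
      simp only [wd, div_eq_mul_inv]
    rw [e]
    have h' : HasFDerivAt (fun y => (fderiv ℝ f y (Pi.single i 1) -
        Complex.I * fderiv ℝ f y (Pi.single i Complex.I)) * (2 : ℂ)⁻¹) _ z := h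
    rw [h'.fderiv]
    simp
    ring
  have hs : ∀ z u v : V n, fderiv ℝ (fderiv ℝ f) z u v = fderiv ℝ (fderiv ℝ f) z v u := by
    intro z u v
    have := (h2.contDiffAt (x := z)).isSymmSndFDerivAt (by simp)
    exact this u v
  funext z
  show (fderiv ℝ (wd k f) z (Pi.single j 1) -
      Complex.I * fderiv ℝ (wd k f) z (Pi.single j Complex.I)) / 2 =
    (fderiv ℝ (wd j f) z (Pi.single k 1) -
      Complex.I * fderiv ℝ (wd j f) z (Pi.single k Complex.I)) / 2
  rw [hwd, hwd, hwd, hwd, hs z (Pi.single j 1) (Pi.single k 1),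
    hs z (Pi.single j 1) (Pi.single k Complex.I), hs z (Pi.single j Complex.I) (Pi.single k 1),
    hs z (Pi.single j Complex.I) (Pi.single k Complex.I)]
  ring

lemma dl_cons (j : Fin n) (l : List (Fin n)) (f : V n → ℂ) :
    dl (j :: l) f = wd j (dl l f) := rfl

lemma dl_smooth (hWD : S_WD) (l : List (Fin n)) {f : V n → ℂ} (hf : ContDiff ℝ ∞ f) :
    ContDiff ℝ ∞ (dl l f) := by
  induction l with
  | nil => exact hf
  | cons j l ih => exact (hWD n j).2.2.1 _ ih

lemma dl_wd (hWD : S_WD) (l : List (Fin n)) (j : Fin n) {f : V n → ℂ} (hf : ContDiff ℝ ∞ f) :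
    dl l (wd j f) = wd j (dl l f) := by
  induction l with
  | nil => rfl
  | cons k l ih => rw [dl_cons, dl_cons, ih, wd_comm (dl_smooth hWD l hf)]

lemma sym_wd_wc (hWD : S_WD) (hS : S_SYM1) {Φ : V n → ℝ} (hΦ : ContDiff ℝ ∞ Φ)
    (hΦ1 : Sym 1 (fun z => (Φ z : ℂ))) (j : Fin n) {k : ℤ} {b : V n → ℂ} (hb : Sym k b) :
    ∃ b' : V n → ℂ, Sym k b' ∧
      wd j (fun y => b y * wc Φ y) = fun z => b' z * wc Φ z := by
  obtain ⟨hmul, hadd, hmono, hconst, -, hwd⟩ := hS n
  obtain ⟨hr, -, -, hw, -⟩ := hWD n j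
  obtain ⟨hw1, hw2⟩ := hw Φ hΦ
  have h1 : Sym 0 (fun z => gr Φ z j) := by
    have h := hmul 0 (1 - 1) _ _ (hconst 2) (hwd 1 _ j hΦ1)
    simpa [gr] using h
  have h2 : Sym k (fun z => (-1 : ℂ) * (b z * gr Φ z j)) := by
    have h := hmul 0 (k + 0) _ _ (hconst (-1)) (hmul k 0 _ _ hb h1)
    simpa using h
  refine ⟨fun z => wd j b z + (-1 : ℂ) * (b z * gr Φ z j),
    hadd k _ _ (hmono (k - 1) k _ (by omega) (hwd k b j hb)) h2, ?_⟩
  funext z
  rw [(hr b (wc Φ) (hb.1.differentiable (by simp)) (hw1.differentiable (by simp)) z).2, hw2 z]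
  ring

lemma dl_wc (hWD : S_WD) (hS : S_SYM1) {Φ : V n → ℝ} (hΦ : ContDiff ℝ ∞ Φ)
    (hΦ1 : Sym 1 (fun z => (Φ z : ℂ))) (l : List (Fin n)) :
    ∃ b : V n → ℂ, Sym 0 b ∧ dl l (wc Φ) = fun z => b z * wc Φ z := by
  induction l with
  | nil =>
    refine ⟨fun _ => 1, (hS n).2.2.2.1 1, ?_⟩
    funext z
    simp [dl]
  | cons j l ih =>
    obtain ⟨b, hb, e⟩ := ih
    obtain ⟨b', hb', e'⟩ := sym_wd_wc hWD hS hΦ hΦ1 j hb
    exact ⟨b', hb', by rw [dl_cons, e, e']⟩

lemma dl_gr (hG : S_GR2) {Φ : V n → ℝ} (hΦ : ContDiff ℝ ∞ Φ)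
    (hΦ1 : Sym 1 (fun z => (Φ z : ℂ))) (l : List (Fin n)) {s : ℤ} {f : V n → ℂ}
    (hf : Gr Φ s f) : Gr Φ s (dl l f) := by
  induction l with
  | nil => exact hf
  | cons j l ih => exact (hG n Φ hΦ hΦ1).1 s _ j ih

lemma dl_parts (hI : S_IBP) (hWD : S_WD) (hS : S_SYM1) (hG : S_GR2) {Φ : V n → ℝ}
    (hΦ : ContDiff ℝ ∞ Φ) (hΦ1 : Sym 1 (fun z => (Φ z : ℂ))) {s t : ℤ} {r : V n → ℂ}
    (hr : Gr Φ t r) (hst : s + t ≤ -(2 * n + 1 : ℤ)) (l : List (Fin n)) :
    ∀ f : V n → ℂ, Gr Φ s f →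
      ∫ z, dl l f z * starRingEnd ℂ (r z) * wc Φ z =
        (-1) ^ l.length * ∫ z, f z * starRingEnd ℂ (r z) * dl l (wc Φ) z := by
  induction l with
  | nil => intro f _; simp [dl]
  | cons j l ih =>
    intro f hf
    have hfs : ContDiff ℝ ∞ f := ((hWD n j).2.2.2.2 f hf.1).1
    rw [dl_cons, ← dl_wd hWD l j hfs, ih _ ((hG n Φ hΦ hΦ1).1 s f j hf)]
    obtain ⟨b, hb, e⟩ := dl_wc hWD hS hΦ hΦ1 l
    rw [dl_cons, e, (hI n Φ hΦ hΦ1 j 0 s t f r b hf hr hb (by omega)).2]
    rw [List.length_cons, pow_succ]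
    ring

theorem IBPP.main (hI : S_IBP) (hS : S_SYM1) (hWD : S_WD) (hG : S_GR2) : S_IBPP := by
  intro n P Φ hΦ hΦ1 s t f r hf hr hst
  rcases n with _ | n
  · -- no variables
    have hPD : ∀ z, PD P f z = (∑ α ∈ P.support, P.coeff α) * f z := by
      intro z
      unfold PD
      rw [Finset.sum_mul]
      refine Finset.sum_congr rfl fun α _ => ?_
      have : wl α = [] := by
        rcases h : wl α with _ | ⟨j, _⟩
        · rfl
        · exact j.elim0
      rw [this]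
      simp [dl]
    have hPDm : ∀ z, PDm P (wc Φ) z = (∑ α ∈ P.support, P.coeff α) * wc Φ z := by
      intro z
      unfold PDm
      rw [Finset.sum_mul]
      refine Finset.sum_congr rfl fun α _ => ?_
      have : wl α = [] := by
        rcases h : wl α with _ | ⟨j, _⟩
        · rfl
        · exact j.elim0
      rw [this]
      simp [dl]
    congr 1
    funext z
    rw [hPD, hPDm]
    ring
  · have j0 : Fin (n + 1) := 0
    have hint : ∀ (b g : V (n + 1) → ℂ), Sym 0 b → Gr Φ s g →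
        Integrable (fun z => g z * starRingEnd ℂ (r z) * (b z * wc Φ z)) := fun b g hb hg =>
      (hI (n + 1) Φ hΦ hΦ1 j0 0 s t g r b hg hr hb (by omega)).1
    have hone : Sym 0 (fun _ : V (n + 1) => (1 : ℂ)) := (hS (n + 1)).2.2.2.1 1
    have eL : ∀ z, PD P f z * starRingEnd ℂ (r z) * wc Φ z = ∑ α ∈ P.support,
        P.coeff α * (dl (wl α) f z * starRingEnd ℂ (r z) * wc Φ z) := by
      intro z
      unfold PD
      rw [Finset.sum_mul, Finset.sum_mul]
      exact Finset.sum_congr rfl fun α _ => by ring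
    have eR : ∀ z, f z * starRingEnd ℂ (r z) * PDm P (wc Φ) z = ∑ α ∈ P.support,
        P.coeff α * (-1) ^ (wl α).length *
          (f z * starRingEnd ℂ (r z) * dl (wl α) (wc Φ) z) := by
      intro z
      unfold PDm
      rw [Finset.mul_sum]
      exact Finset.sum_congr rfl fun α _ => by ring
    simp only [eL, eR]
    rw [integral_finset_sum, integral_finset_sum]
    · refine Finset.sum_congr rfl fun α _ => ?_
      rw [integral_const_mul, integral_const_mul,
        dl_parts hI hWD hS hG hΦ hΦ1 hr hst (wl α) f hf]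
      ring
    · intro α _
      obtain ⟨b, hb, e⟩ := dl_wc hWD hS hΦ hΦ1 (wl α)
      rw [e]
      exact (hint b f hb hf).const_mul _
    · intro α _
      refine Integrable.const_mul ?_ _
      have := hint _ (dl (wl α) f) hone (dl_gr hG hΦ hΦ1 (wl α) hf)
      simpa using this

end Pool.Agent.Helper54.FN
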