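import Pool.Agent.Helper54.FN.IBPP

set_option autoImplicit false

/-!
Iterated integration by parts for `Nop l`.
-/

namespace Pool.Agent.Helper54.FN

open MeasureTheory
open scoped ContDiff
open Pool.Agent.Helper25.FN
open Pool.Agent.Helper25.FB.Inj (Entire)

variable {n : ℕ}

lemma gr_sum (hG : S_GR2) {Φ : V n → ℝ} (hΦ : ContDiff ℝ ∞ Φ)
    (hΦ1 : Sym 1 (fun z => (Φ z : ℂ))) {s : ℤ} (S : Finset (Fin n)) {F : Fin n → V n → ℂ}
    {f0 : V n → ℂ} (h0 : Gr Φ s f0) (hF : ∀ j, Gr Φ s (F j)) :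
    Gr Φ s (fun z => ∑ j ∈ S, F j z) := by
  obtain ⟨-, hadd, hsm, -⟩ := hG n Φ hΦ hΦ1
  induction S using Finset.induction_on with
  | empty => simpa using hsm s f0 0 h0
  | insert a S ha ih =>
    have := hadd s _ _ (hF a) ih
    simpa [Finset.sum_insert ha] using this

lemma gr_Nop (hG : S_GR2) {Φ : V n → ℝ} (hΦ : ContDiff ℝ ∞ Φ)
    (hΦ1 : Sym 1 (fun z => (Φ z : ℂ))) (l : ℝ) {s : ℤ} {f : V n → ℂ} (hf : Gr Φ s f) :
    Gr Φ (s + 1) (Nop l f) := by
  obtain ⟨hd, hadd, hsm, hmono, hP, -⟩ := hG n Φ hΦ hΦ1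
  have hf1 : Gr Φ (s + 1) f := hmono s (s + 1) f (by omega) hf
  refine hadd (s + 1) _ _ (hsm (s + 1) f l hf1) (gr_sum hG hΦ hΦ1 Finset.univ hf1 fun j => ?_)
  have h := hP s _ (MvPolynomial.X j) (hd s f j hf)
  simpa [MvPolynomial.totalDegree_X] using h

lemma sym_sum (hS : S_SYM1) {k : ℤ} (S : Finset (Fin n)) {F : Fin n → V n → ℂ}
    {f0 : V n → ℂ} (h0 : Sym k f0) (hF : ∀ j, Sym k (F j)) :
    Sym k (fun z => ∑ j ∈ S, F j z) := by
  obtain ⟨hmul, hadd, hmono, hconst, -, -⟩ := hS n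
  induction S using Finset.induction_on with
  | empty =>
    have := hmul 0 k _ _ (hconst 0) h0
    simpa using this
  | insert a S ha ih =>
    have := hadd k _ _ (hF a) ih
    simpa [Finset.sum_insert ha] using this

lemma Nt_wc (hWD : S_WD) (hS : S_SYM1) {Φ : V n → ℝ} (hΦ : ContDiff ℝ ∞ Φ)
    (hΦ1 : Sym 1 (fun z => (Φ z : ℂ))) (l : ℝ) {k : ℤ} {q : V n → ℂ} (hq : Sym k q) :
    ∃ q' : V n → ℂ, Sym (k + 1) q' ∧
      Nt l (fun y => q y * wc Φ y) = fun z => q' z * wc Φ z := by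
  obtain ⟨hmul, hadd, hmono, hconst, hco, hwd⟩ := hS n
  have hq1 : ∀ j : Fin n, Sym (k + 1) (fun z => z j * q z) := fun j => by
    have := hmul 1 k _ _ (hco j) hq
    rwa [add_comm] at this
  choose b hb e using fun j : Fin n => sym_wd_wc hWD hS hΦ hΦ1 j (hq1 j)
  have hqk : Sym (k + 1) q := hmono k (k + 1) q (by omega) hq
  refine ⟨fun z => (l : ℂ) * q z + (-1) * ∑ j, b j z, ?_, ?_⟩
  · refine hadd (k + 1) _ _ ?_ ?_
    · simpa using hmul 0 (k + 1) _ _ (hconst l) hqk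
    · simpa using hmul 0 (k + 1) _ _ (hconst (-1)) (sym_sum hS Finset.univ hqk hb)
  · funext z
    unfold Nt
    have e' : ∀ j, wd j (fun y => y j * (q y * wc Φ y)) z = b j z * wc Φ z := by
      intro j
      have := congrFun (e j) z
      rw [← this]
      congr 1
      funext y
      ring
    simp only [e']
    rw [← Finset.sum_mul]
    ring

lemma iter_wc (hWD : S_WD) (hS : S_SYM1) {Φ : V n → ℝ} (hΦ : ContDiff ℝ ∞ Φ)
    (hΦ1 : Sym 1 (fun z => (Φ z : ℂ))) (l : ℝ) (i : ℕ) :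
    ∃ q : V n → ℂ, Sym i q ∧ (Nt l)^[i] (wc Φ) = fun z => q z * wc Φ z := by
  induction i with
  | zero =>
    refine ⟨fun _ => 1, by simpa using (hS n).2.2.2.1 1, ?_⟩
    funext z
    simp
  | succ i ih =>
    obtain ⟨q, hq, e⟩ := ih
    obtain ⟨q', hq', e'⟩ := Nt_wc hWD hS hΦ hΦ1 l hq
    refine ⟨q', by push_cast; exact hq', ?_⟩
    rw [Function.iterate_succ_apply', e, e']

lemma step (hI : S_IBP) (hWD : S_WD) (hS : S_SYM1) {Φ : V n → ℝ}
    (hΦ : ContDiff ℝ ∞ Φ) (hΦ1 : Sym 1 (fun z => (Φ z : ℂ))) (l : ℝ) (hn : 1 ≤ n)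
    {s t k : ℤ} {f r q : V n → ℂ} (hf : Gr Φ s f) (hr : Gr Φ t r) (hq : Sym k q)
    (h : s + t + (k + 1) ≤ -(2 * n + 1 : ℤ)) (hG : S_GR2) :
    ∫ z, Nop l f z * starRingEnd ℂ (r z) * (q z * wc Φ z) =
      ∫ z, f z * starRingEnd ℂ (r z) * Nt l (fun y => q y * wc Φ y) z := by
  obtain ⟨hmul, hadd, hmono, hconst, hco, hwd⟩ := hS n
  have hq1 : ∀ j : Fin n, Sym (k + 1) (fun z => z j * q z) := fun j => by
    have := hmul 1 k _ _ (hco j) hq
    rwa [add_comm] at this
  have i0 : Integrable (fun z => f z * starRingEnd ℂ (r z) * (q z * wc Φ z)) :=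
    (hI n Φ hΦ hΦ1 ⟨0, hn⟩ k s t f r q hf hr hq (by omega)).1
  have i1 : ∀ j, Integrable (fun z => wd j f z * starRingEnd ℂ (r z) *
      ((z j * q z) * wc Φ z)) := fun j =>
    (hI n Φ hΦ hΦ1 j (k + 1) s t (wd j f) r _ ((hG n Φ hΦ hΦ1).1 s f j hf) hr (hq1 j) h).1
  choose b hb e using fun j : Fin n => sym_wd_wc hWD hS hΦ hΦ1 j (hq1 j)
  have i2 : ∀ j, Integrable (fun z => f z * starRingEnd ℂ (r z) *
      wd j (fun y => y j * q y * wc Φ y) z) := fun j => by
    rw [e j]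
    exact (hI n Φ hΦ hΦ1 j (k + 1) s t f r _ hf hr (hb j) h).1
  have eL : ∀ z, Nop l f z * starRingEnd ℂ (r z) * (q z * wc Φ z) =
      (l : ℂ) * (f z * starRingEnd ℂ (r z) * (q z * wc Φ z)) +
        ∑ j, wd j f z * starRingEnd ℂ (r z) * ((z j * q z) * wc Φ z) := by
    intro z
    unfold Nop
    rw [add_mul, add_mul, Finset.sum_mul, Finset.sum_mul]
    congr 1
    · ring
    · exact Finset.sum_congr rfl fun j _ => by ring
  have eR : ∀ z, f z * starRingEnd ℂ (r z) * Nt l (fun y => q y * wc Φ y) z =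
      (l : ℂ) * (f z * starRingEnd ℂ (r z) * (q z * wc Φ z)) -
        ∑ j, f z * starRingEnd ℂ (r z) * wd j (fun y => y j * q y * wc Φ y) z := by
    intro z
    unfold Nt
    rw [mul_sub, Finset.mul_sum]
    congr 1
    · ring
    · refine Finset.sum_congr rfl fun j _ => ?_
      congr 2
      funext y
      ring
  simp only [eL, eR]
  rw [integral_add (i0.const_mul _) (integrable_finset_sum _ fun j _ => i1 j),
    integral_sub (i0.const_mul _) (integrable_finset_sum _ fun j _ => i2 j),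
    integral_finset_sum _ fun j _ => i1 j, integral_finset_sum _ fun j _ => i2 j,
    sub_eq_add_neg, ← Finset.sum_neg_distrib]
  congr 1
  exact Finset.sum_congr rfl fun j _ =>
    (hI n Φ hΦ hΦ1 j (k + 1) s t f r _ hf hr (hq1 j) h).2

theorem IBPN.main (hI : S_IBP) (hS : S_SYM1) (hWD : S_WD) (hG : S_GR2) : S_IBPN := by
  intro n Φ hΦ hΦ1 l i
  rcases Nat.eq_zero_or_pos n with rfl | hn
  · -- no variables
    intro s t f r _ _ _
    have h1 : ∀ g : V 0 → ℂ, Nop l g = fun z => (l : ℂ) * g z := by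
      intro g; funext z; simp [Nop]
    have h2 : ∀ g : V 0 → ℂ, Nt l g = fun z => (l : ℂ) * g z := by
      intro g; funext z; simp [Nt]
    have h3 : ∀ (i : ℕ) (g : V 0 → ℂ), (Nop l)^[i] g = fun z => (l : ℂ) ^ i * g z := by
      intro i
      induction i with
      | zero => intro g; funext z; simp
      | succ i ih =>
        intro g
        rw [Function.iterate_succ_apply', ih, h1]
        funext z
        ring
    have h4 : ∀ (i : ℕ) (g : V 0 → ℂ), (Nt l)^[i] g = fun z => (l : ℂ) ^ i * g z := by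
      intro i
      induction i with
      | zero => intro g; funext z; simp
      | succ i ih =>
        intro g
        rw [Function.iterate_succ_apply', ih, h2]
        funext z
        ring
    rw [h3, h4]
    congr 1
    funext z
    ring
  · induction i with
    | zero => intro s t f r _ _ _; rfl
    | succ i ih =>
      intro s t f r hf hr h
      push_cast at h
      obtain ⟨q, hq, e⟩ := iter_wc hWD hS hΦ hΦ1 l i
      rw [Function.iterate_succ_apply,
        ih (s + 1) t _ r (gr_Nop hG hΦ hΦ1 l hf) hr (by omega), e,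
        step hI hWD hS hΦ hΦ1 l hn hf hr hq (by omega) hG, Function.iterate_succ_apply', e]

end Pool.Agent.Helper54.FN
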